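import Mathlib

/-!
Every linearly ordered coarse space is asymorphic to a subspace of a linearly ordered coarse space
with an interval base.

The points of the larger space are the cuts `(A, ε)` of `X` (`A` a lower set, `ε ∈ {0, 1}`, ordered
lexicographically) which lie in the hull of some convex ball; `x` becomes `({≤ x}, 0)`, and the hull
of a convex set `C` is the interval from `({< C}, 1)` to `({≤ some element of C}, 0)`. Disjoint
convex sets have disjoint hulls.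
-/

set_option autoImplicit false

namespace Pool.Agent.Results.MP_54b381_gt.IntervalBaseEmbedding

universe u

section defs
variable {X : Type u}

/-- A coarse structure on `X`. -/
structure IsCoarse (𝓔 : Set (Set (X × X))) : Prop where
  /-- every entourage contains the diagonal -/
  diag : ∀ E ∈ 𝓔, ∀ x, (x, x) ∈ E
  /-- compositions -/
  comp : ∀ E ∈ 𝓔, ∀ E' ∈ 𝓔, {p : X × X | ∃ y, (p.1, y) ∈ E ∧ (y, p.2) ∈ E'} ∈ 𝓔
  /-- inverses -/
  inv : ∀ E ∈ 𝓔, {p : X × X | (p.2, p.1) ∈ E} ∈ 𝓔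
  /-- smaller entourages -/
  mono : ∀ E ∈ 𝓔, ∀ E' ⊆ E, (∀ x, (x, x) ∈ E') → E' ∈ 𝓔

/-- The ball `E[x]`. -/
def ball (E : Set (X × X)) (x : X) : Set X := {y | (x, y) ∈ E}

/-- The coarse space is connected. -/
def IsConn (𝓔 : Set (Set (X × X))) : Prop := ∀ x y, ∃ E ∈ 𝓔, y ∈ ball E x

/-- The linear order is compatible with the coarse structure. -/
def Compatible [LinearOrder X] (𝓔 : Set (Set (X × X))) : Prop :=
  ∀ E ∈ 𝓔, ∃ F ∈ 𝓔, ∀ x y, x < y → y ∉ ball F x → ∀ x' ∈ ball E x, x' < y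

/-- Linearly ordered coarse spaces. -/
structure IsLinearlyOrderedCoarse [LinearOrder X] (𝓔 : Set (Set (X × X))) : Prop where
  /-- coarse structure -/
  coarse : IsCoarse 𝓔
  /-- connected -/
  conn : IsConn 𝓔
  /-- compatible order -/
  compat : Compatible 𝓔

/-- `𝓑` is a base of `𝓔`. -/
def IsBase (𝓑 𝓔 : Set (Set (X × X))) : Prop := 𝓑 ⊆ 𝓔 ∧ ∀ E ∈ 𝓔, ∃ B ∈ 𝓑, E ⊆ B

/-- There is a base all of whose balls are intervals `[a, b]`. -/
def HasIntervalBase [LinearOrder X] (𝓔 : Set (Set (X × X))) : Prop :=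
  ∃ 𝓑, IsBase 𝓑 𝓔 ∧ ∀ B ∈ 𝓑, ∀ x, ∃ a b, a ≤ b ∧ ball B x = Set.Icc a b

/-- The coarse structure of the subspace `Y`. -/
def restrict (𝓔 : Set (Set (X × X))) (Y : Set X) : Set (Set (Y × Y)) :=
  {D | ∃ E ∈ 𝓔, D = {p : Y × Y | ((p.1 : X), (p.2 : X)) ∈ E}}

/-- Macro-uniform maps. -/
def MacroUniform {X' : Type u} (𝓔 : Set (Set (X × X))) (𝓔' : Set (Set (X' × X'))) (f : X → X') :
    Prop := ∀ E ∈ 𝓔, ∃ E' ∈ 𝓔', ∀ x, f '' ball E x ⊆ ball E' (f x)

/-- Asymorphic coarse spaces. -/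
def Asymorphic {X' : Type u} (𝓔 : Set (Set (X × X))) (𝓔' : Set (Set (X' × X'))) : Prop :=
  ∃ f : X ≃ X', MacroUniform 𝓔 𝓔' f ∧ MacroUniform 𝓔' 𝓔 f.symm

end defs

/-! ### Convex balls -/

section convex
variable {X : Type u} [LinearOrder X] {𝓔 : Set (Set (X × X))}

/-- Entourages with convex balls. -/
def ConvexEnt (𝓔 : Set (Set (X × X))) : Set (Set (X × X)) :=
  {E | E ∈ 𝓔 ∧ ∀ x, (ball E x).OrdConnected}

lemma exists_convex (h : IsLinearlyOrderedCoarse 𝓔) {E : Set (X × X)} (hE : E ∈ 𝓔) :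
    ∃ E' ∈ ConvexEnt 𝓔, E ⊆ E' := by
  have hd := h.coarse.diag
  obtain ⟨F, hF, hF'⟩ := h.compat E hE
  obtain ⟨G, hG, hG'⟩ := h.compat _ (h.coarse.inv E hE)
  have hEG := h.coarse.comp E hE G hG
  have hall := h.coarse.comp F hF _ hEG
  let C : Set (X × X) := {p | ∃ a ∈ ball E p.1, ∃ b ∈ ball E p.1, a ≤ p.2 ∧ p.2 ≤ b}
  have hCsub : C ⊆ {p : X × X | ∃ y, (p.1, y) ∈ F ∧ (y, p.2) ∈
      {p : X × X | ∃ y, (p.1, y) ∈ E ∧ (y, p.2) ∈ G}} := by
    rintro ⟨x, y⟩ ⟨a, ha, b, hb, hay, hyb⟩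
    simp only at hay hyb ha hb
    rcases lt_trichotomy x y with hxy | hxy | hxy
    · have : y ∈ ball F x := by
        by_contra hcon
        exact absurd (hF' x y hxy hcon b hb) (not_lt.2 hyb)
      exact ⟨y, this, y, hd E hE y, hd G hG y⟩
    · subst hxy
      exact ⟨x, hd F hF x, x, hd E hE x, hd G hG x⟩
    · rcases hay.eq_or_lt with h1 | h1
      · subst h1
        exact ⟨x, hd F hF x, a, ha, hd G hG a⟩
      · have : y ∈ ball G a := by
          by_contra hcon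
          exact absurd (hG' a y h1 hcon x ha) (not_lt.2 hxy.le)
        exact ⟨x, hd F hF x, a, ha, this⟩
  have hC : C ∈ 𝓔 := h.coarse.mono _ hall C hCsub fun x =>
    ⟨x, hd E hE x, x, hd E hE x, le_rfl, le_rfl⟩
  refine ⟨C, ⟨hC, fun x => ⟨?_⟩⟩, ?_⟩
  · rintro y ⟨a, ha, -, -, hay, -⟩ z ⟨-, -, b, hb, -, hzb⟩ w ⟨hyw, hwz⟩
    exact ⟨a, ha, b, hb, hay.trans hyw, hwz.trans hzb⟩
  · rintro ⟨x, y⟩ hxy
    exact ⟨y, hxy, y, hxy, le_rfl, le_rfl⟩

end convex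

/-! ### Cuts and hulls -/

section cuts
variable {X : Type u} [LinearOrder X]

/-- The cuts of `X`. -/
abbrev Cut (X : Type u) [LinearOrder X] : Type u := LowerSet X ×ₗ Bool

/-- The elements below all elements of `C`. -/
def below (C : Set X) : LowerSet X := ⟨{y | ∀ c ∈ C, y < c}, fun _ _ hab ha c hc =>
  hab.trans_lt (ha c hc)⟩

/-- The left end of the hull. -/
def lo (C : Set X) : Cut X := toLex (below C, true)

/-- The right end of the hull. -/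
def hi (C : Set X) : Cut X := toLex (lowerClosure C, false)

/-- The hull of a set. -/
def hull (C : Set X) : Set (Cut X) := Set.Icc (lo C) (hi C)

/-- The points of `X` as cuts. -/
def pt (x : X) : Cut X := toLex (LowerSet.Iic x, false)

lemma lo_le_iff (C : Set X) (A : LowerSet X) (b : Bool) :
    lo C ≤ toLex (A, b) ↔ below C < A ∨ (below C = A ∧ b = true) := by
  unfold lo
  rw [Prod.Lex.toLex_le_toLex]
  simp only
  cases b <;> simp

lemma le_hi_iff (C : Set X) (A : LowerSet X) (b : Bool) :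
    toLex (A, b) ≤ hi C ↔ A < lowerClosure C ∨ (A = lowerClosure C ∧ b = false) := by
  unfold hi
  rw [Prod.Lex.toLex_le_toLex]
  simp only
  cases b <;> simp

lemma below_lt (C : Set X) (hC : C.Nonempty) : below C < lowerClosure C := by
  obtain ⟨c, hc⟩ := hC
  refine lt_of_le_of_ne ?_ fun h => ?_
  · intro y hy
    exact mem_lowerClosure.2 ⟨c, hc, (hy c hc).le⟩
  · have h1 : c ∈ lowerClosure C := subset_lowerClosure hc
    rw [← h] at h1
    exact lt_irrefl c (h1 c hc)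

lemma lo_le_hi (C : Set X) (hC : C.Nonempty) : lo C ≤ hi C := by
  unfold hi
  rw [lo_le_iff]
  exact Or.inl (below_lt C hC)

lemma Iic_le {x y : X} : LowerSet.Iic x ≤ LowerSet.Iic y ↔ x ≤ y :=
  ⟨fun h => h (le_refl x : x ∈ LowerSet.Iic x), fun h a ha => le_trans (ha : a ≤ x) h⟩

lemma pt_le {x y : X} (h : x ≤ y) : pt x ≤ pt y := by
  unfold pt
  rw [Prod.Lex.toLex_le_toLex']
  exact ⟨Iic_le.2 h, fun _ => le_rfl⟩

lemma pt_injective : Function.Injective (pt (X := X)) := by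
  intro x y h
  have h1 : LowerSet.Iic x = LowerSet.Iic y := congrArg (fun z : Cut X => (ofLex z).1) h
  exact le_antisymm (Iic_le.1 h1.le) (Iic_le.1 h1.ge)

lemma pt_mem_hull {C : Set X} {x : X} (hx : x ∈ C) : pt x ∈ hull C := by
  constructor
  · unfold pt
    rw [lo_le_iff]
    left
    refine lt_of_le_of_ne ?_ fun h => ?_
    · intro y hy
      exact (hy x hx).le
    · have h1 : x ∈ LowerSet.Iic x := le_refl x
      rw [← h] at h1
      exact lt_irrefl x (h1 x hx)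
  · unfold pt
    rw [le_hi_iff]
    have h1 : LowerSet.Iic x ≤ lowerClosure C := fun y hy => mem_lowerClosure.2 ⟨x, hx, hy⟩
    rcases h1.lt_or_eq with h | h
    · exact Or.inl h
    · exact Or.inr ⟨h, rfl⟩

lemma mem_of_pt_mem_hull {C : Set X} (hC : C.OrdConnected) {x : X} (hx : pt x ∈ hull C) :
    x ∈ C := by
  obtain ⟨h1, h2⟩ := hx
  unfold pt at h1 h2
  rw [lo_le_iff] at h1
  rw [le_hi_iff] at h2
  have h3 : below C < LowerSet.Iic x := by
    rcases h1 with h | ⟨-, h⟩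
    · exact h
    · exact absurd h (by simp)
  have h4 : LowerSet.Iic x ≤ lowerClosure C := by
    rcases h2 with h | ⟨h, -⟩
    · exact h.le
    · exact h.le
  obtain ⟨c', hc', hxc'⟩ := mem_lowerClosure.1 (h4 (le_refl x : x ∈ LowerSet.Iic x))
  have h5 : ∃ y, y ≤ x ∧ y ∉ below C := by
    by_contra hcon
    push Not at hcon
    exact absurd (show LowerSet.Iic x ≤ below C from fun y hy => hcon y hy) (not_le.2 h3)
  obtain ⟨y, hyx, hy⟩ := h5
  have h6 : ∃ c ∈ C, c ≤ y := by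
    by_contra hcon
    push Not at hcon
    exact hy hcon
  obtain ⟨c, hc, hcy⟩ := h6
  exact hC.out hc hc' ⟨hcy.trans hyx, hxc'⟩

lemma hull_mono {C C' : Set X} (h : C ⊆ C') : hull C ⊆ hull C' := by
  have h1 : lo C' ≤ lo C := by
    unfold lo
    rw [Prod.Lex.toLex_le_toLex']
    exact ⟨fun y hy c hc => hy c (h hc), fun _ => le_rfl⟩
  have h2 : hi C ≤ hi C' := by
    unfold hi
    rw [Prod.Lex.toLex_le_toLex']
    exact ⟨lowerClosure_mono h, fun _ => le_rfl⟩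
  exact Set.Icc_subset_Icc h1 h2

lemma hull_disjoint_aux {C C' : Set X} (h : ∀ c ∈ C, ∀ c' ∈ C', c < c') {z : Cut X}
    (hz : z ∈ hull C) (hz' : z ∈ hull C') : False := by
  have h1 : lo C' ≤ hi C := hz'.1.trans hz.2
  unfold hi at h1
  rw [lo_le_iff] at h1
  have h2 : below C' < lowerClosure C := by
    rcases h1 with h | ⟨-, h⟩
    · exact h
    · exact absurd h (by simp)
  refine absurd ?_ (not_le.2 h2)
  intro y hy c' hc'
  obtain ⟨c, hc, hyc⟩ := mem_lowerClosure.1 hy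
  exact hyc.trans_lt (h c hc c' hc')

/-- Disjoint convex sets have disjoint hulls. -/
lemma inter_nonempty {C C' : Set X} (hC : C.OrdConnected) (hC' : C'.OrdConnected)
    (hn : C.Nonempty) (hn' : C'.Nonempty) {z : Cut X} (hz : z ∈ hull C) (hz' : z ∈ hull C') :
    (C ∩ C').Nonempty := by
  by_contra hcon
  rw [Set.not_nonempty_iff_eq_empty, ← Set.disjoint_iff_inter_eq_empty, Set.disjoint_left] at hcon
  have key : ∀ (D D' : Set X), D.OrdConnected → D'.OrdConnected → (∀ a ∈ D, a ∉ D') →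
      ∀ d₀ ∈ D, ∀ d₀' ∈ D', d₀ < d₀' → ∀ d ∈ D, ∀ d' ∈ D', d < d' := by
    intro D D' hD hD' hdis d₀ h₀ d₀' h₀' hlt d hd d' hd'
    by_contra hle
    rw [not_lt] at hle
    rcases le_or_gt d₀' d with h1 | h1
    · exact hdis d₀' (hD.out h₀ hd ⟨hlt.le, h1⟩) h₀'
    · exact hdis d hd (hD'.out hd' h₀' ⟨hle, h1.le⟩)
  obtain ⟨c₀, h₀⟩ := hn
  obtain ⟨c₀', h₀'⟩ := hn'
  rcases lt_trichotomy c₀ c₀' with h | h | h
  · exact hull_disjoint_aux (key C C' hC hC' (fun a ha ha' => hcon ha ha') c₀ h₀ c₀' h₀' h) hz hz'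
  · exact hcon h₀ (h ▸ h₀')
  · exact hull_disjoint_aux (key C' C hC' hC (fun a ha ha' => hcon ha' ha) c₀' h₀' c₀ h₀ h) hz' hz

end cuts

/-! ### The larger space -/

section space
variable {X : Type u} [LinearOrder X] (𝓔 : Set (Set (X × X)))

/-- The points of the larger space: the cuts in the hulls of the convex balls. -/
abbrev ZZ : Type u := {z : Cut X // ∃ E ∈ ConvexEnt 𝓔, ∃ x, z ∈ hull (ball E x)}

/-- Two points lie in the hull of one ball of `E`. -/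
def Close (E : Set (X × X)) (z w : Cut X) : Prop := ∃ x, z ∈ hull (ball E x) ∧ w ∈ hull (ball E x)

/-- The coarse structure of the larger space. -/
def EZ : Set (Set (ZZ 𝓔 × ZZ 𝓔)) :=
  {D | (∀ z, (z, z) ∈ D) ∧ ∃ E ∈ ConvexEnt 𝓔, ∀ z w : ZZ 𝓔, (z, w) ∈ D → z = w ∨ Close E z w}

/-- The union of the balls of `E` whose hull contains `z`. -/
def around (E : Set (X × X)) (z : Cut X) : Set X := {y | ∃ x, z ∈ hull (ball E x) ∧ y ∈ ball E x}

/-- The interval entourages. -/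
def GE (E : Set (X × X)) : Set (ZZ 𝓔 × ZZ 𝓔) :=
  {p | p.1 = p.2 ∨ ((∃ x, (p.1 : Cut X) ∈ hull (ball E x)) ∧
    (p.2 : Cut X) ∈ hull (around E (p.1 : Cut X)))}

variable {𝓔}

lemma ball_nonempty (h : IsLinearlyOrderedCoarse 𝓔) {E : Set (X × X)} (hE : E ∈ 𝓔) (x : X) :
    (ball E x).Nonempty := ⟨x, h.coarse.diag E hE x⟩

/-- Hulls of balls with a common point lie in the hull of one larger ball. -/
lemma exists_big (h : IsLinearlyOrderedCoarse 𝓔) {E E' : Set (X × X)} (hE : E ∈ ConvexEnt 𝓔)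
    (hE' : E' ∈ ConvexEnt 𝓔) : ∃ B ∈ ConvexEnt 𝓔, ∀ x x' : X, (ball E x ∩ ball E' x').Nonempty →
      ball E x ⊆ ball B x ∧ ball E' x' ⊆ ball B x := by
  have h1 := h.coarse.comp E hE.1 _ (h.coarse.inv E' hE'.1)
  have h2 := h.coarse.comp _ h1 E' hE'.1
  obtain ⟨B, hB, hsub⟩ := exists_convex h h2
  refine ⟨B, hB, fun x x' hxx' => ⟨fun y hy => hsub ?_, fun y hy => hsub ?_⟩⟩
  · exact ⟨y, ⟨y, hy, h.coarse.diag E' hE'.1 y⟩, h.coarse.diag E' hE'.1 y⟩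
  · obtain ⟨w, hw, hw'⟩ := hxx'
    exact ⟨x', ⟨w, hw, hw'⟩, hy⟩

lemma exists_big' (h : IsLinearlyOrderedCoarse 𝓔) {E E' : Set (X × X)} (hE : E ∈ ConvexEnt 𝓔)
    (hE' : E' ∈ ConvexEnt 𝓔) : ∃ B ∈ ConvexEnt 𝓔, ∀ (x x' : X) (z : Cut X),
      z ∈ hull (ball E x) → z ∈ hull (ball E' x') →
      ball E x ⊆ ball B x ∧ ball E' x' ⊆ ball B x := by
  obtain ⟨B, hB, hB'⟩ := exists_big h hE hE'
  exact ⟨B, hB, fun x x' z hz hz' => hB' x x' (inter_nonempty (hE.2 x) (hE'.2 x')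
    (ball_nonempty h hE.1 x) (ball_nonempty h hE'.1 x') hz hz')⟩

lemma coarse_EZ (h : IsLinearlyOrderedCoarse 𝓔) : IsCoarse (EZ 𝓔) where
  diag D hD := hD.1
  comp := by
    rintro D ⟨hD, E, hE, hDE⟩ D' ⟨hD', E', hE', hDE'⟩
    refine ⟨fun z => ⟨z, hD z, hD' z⟩, ?_⟩
    obtain ⟨B, hB, hB'⟩ := exists_big' h hE hE'
    obtain ⟨B₂, hB₂, hBB₂⟩ := exists_convex h (h.coarse.comp B hB.1 E' hE'.1)
    have hsub : ∀ x, ball B x ⊆ ball B₂ x := fun x y hy =>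
      hBB₂ ⟨y, hy, h.coarse.diag E' hE'.1 y⟩
    have hsub' : ∀ x, ball E' x ⊆ ball B₂ x := fun x y hy =>
      hBB₂ ⟨x, h.coarse.diag B hB.1 x, hy⟩
    have hsubE : ∀ x, ball E x ⊆ ball B₂ x := by
      intro x
      have hx := h.coarse.diag E hE.1 x
      exact ((hB' x x (pt x) (pt_mem_hull hx) (pt_mem_hull (h.coarse.diag E' hE'.1 x))).1).trans
        (hsub x)
    refine ⟨B₂, hB₂, ?_⟩
    rintro z w ⟨v, hzv, hvw⟩
    rcases hDE z v hzv with h1 | ⟨x, hx, hx'⟩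
    · subst h1
      rcases hDE' z w hvw with h2 | ⟨x, hx, hx'⟩
      · exact Or.inl h2
      · exact Or.inr ⟨x, hull_mono (hsub' x) hx, hull_mono (hsub' x) hx'⟩
    · rcases hDE' v w hvw with h2 | ⟨x', hx2, hx2'⟩
      · subst h2
        exact Or.inr ⟨x, hull_mono (hsubE x) hx, hull_mono (hsubE x) hx'⟩
      · have h3 := hB' x x' v hx' hx2
        exact Or.inr ⟨x, hull_mono (h3.1.trans (hsub x)) hx, hull_mono (h3.2.trans (hsub x)) hx2'⟩
  inv := by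
    rintro D ⟨hD, E, hE, hDE⟩
    refine ⟨fun z => hD z, E, hE, fun z w hzw => ?_⟩
    rcases hDE w z hzw with h1 | ⟨x, hx, hx'⟩
    · exact Or.inl h1.symm
    · exact Or.inr ⟨x, hx', hx⟩
  mono := by
    rintro D ⟨_, E, hE, hDE⟩ D' hsub hD'
    exact ⟨hD', E, hE, fun z w hzw => hDE z w (hsub hzw)⟩

lemma conn_EZ (h : IsLinearlyOrderedCoarse 𝓔) : IsConn (EZ 𝓔) := by
  rintro ⟨z, E, hE, x, hx⟩ ⟨w, E', hE', x', hx'⟩
  obtain ⟨F, hF, hF'⟩ := h.conn x x'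
  have h1 := h.coarse.comp E hE.1 _ (h.coarse.comp F hF E' hE'.1)
  obtain ⟨B, hB, hsub⟩ := exists_convex h h1
  have e1 : ball E x ⊆ ball B x := fun y hy =>
    hsub ⟨y, hy, y, h.coarse.diag F hF y, h.coarse.diag E' hE'.1 y⟩
  have e2 : ball E' x' ⊆ ball B x := fun y hy =>
    hsub ⟨x, h.coarse.diag E hE.1 x, x', hF', hy⟩
  refine ⟨{p : ZZ 𝓔 × ZZ 𝓔 | p.1 = p.2 ∨ Close B (p.1 : Cut X) (p.2 : Cut X)},
    ⟨fun z => Or.inl rfl, B, hB, fun z w hzw => hzw⟩, ?_⟩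
  exact Or.inr ⟨x, hull_mono e1 hx, hull_mono e2 hx'⟩

/-- The union of the balls around a point is convex. -/
lemma around_convex {E : Set (X × X)} (hE : E ∈ ConvexEnt 𝓔) (z : Cut X) :
    (around E z).OrdConnected := by
  constructor
  rintro c ⟨x, hzx, hc⟩ c' ⟨x', hzx', hc'⟩ y ⟨hcy, hyc'⟩
  rcases le_total (pt y) z with h1 | h1
  · refine ⟨x, hzx, mem_of_pt_mem_hull (hE.2 x) ?_⟩
    exact ⟨(pt_mem_hull hc).1.trans (pt_le hcy), h1.trans hzx.2⟩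
  · refine ⟨x', hzx', mem_of_pt_mem_hull (hE.2 x') ?_⟩
    exact ⟨hzx'.1.trans h1, (pt_le hyc').trans (pt_mem_hull hc').2⟩

lemma subset_around {E : Set (X × X)} {z : Cut X} {x : X} (hx : z ∈ hull (ball E x)) :
    ball E x ⊆ around E z := fun _ hy => ⟨x, hx, hy⟩

lemma around_subset (h : IsLinearlyOrderedCoarse 𝓔) {E : Set (X × X)} (hE : E ∈ ConvexEnt 𝓔) :
    ∃ B ∈ ConvexEnt 𝓔, ∀ (x : X) (z : Cut X), z ∈ hull (ball E x) → around E z ⊆ ball B x := by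
  obtain ⟨B, hB, hB'⟩ := exists_big' h hE hE
  refine ⟨B, hB, ?_⟩
  rintro x z hz y ⟨x', hz', hy⟩
  exact (hB' x x' z hz hz').2 hy

lemma GE_mem (h : IsLinearlyOrderedCoarse 𝓔) {E : Set (X × X)} (hE : E ∈ ConvexEnt 𝓔) :
    GE 𝓔 E ∈ EZ 𝓔 := by
  obtain ⟨B, hB, hB'⟩ := around_subset h hE
  refine ⟨fun z => Or.inl rfl, B, hB, ?_⟩
  rintro z w (h1 | ⟨⟨x, hx⟩, hw⟩)
  · exact Or.inl h1
  · refine Or.inr ⟨x, hull_mono ?_ hx, hull_mono (hB' x z hx) hw⟩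
    exact fun y hy => hB' x z hx ⟨x, hx, hy⟩

lemma ball_GE (h : IsLinearlyOrderedCoarse 𝓔) {E : Set (X × X)} (hE : E ∈ ConvexEnt 𝓔)
    (z : ZZ 𝓔) : ∃ a b : ZZ 𝓔, a ≤ b ∧ ball (GE 𝓔 E) z = Set.Icc a b := by
  by_cases hz : ∃ x, (z : Cut X) ∈ hull (ball E x)
  · obtain ⟨x, hx⟩ := hz
    obtain ⟨B, hB, hB'⟩ := around_subset h hE
    have hsub : hull (around E (z : Cut X)) ⊆ hull (ball B x) := hull_mono (hB' x z hx)
    have hne : (around E (z : Cut X)).Nonempty := ⟨x, x, hx, h.coarse.diag E hE.1 x⟩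
    have hle := lo_le_hi _ hne
    refine ⟨⟨lo (around E (z : Cut X)), B, hB, x, hsub ⟨le_rfl, hle⟩⟩,
      ⟨hi (around E (z : Cut X)), B, hB, x, hsub ⟨hle, le_rfl⟩⟩, hle, ?_⟩
    ext w
    have hzz : (z : Cut X) ∈ hull (around E (z : Cut X)) := hull_mono (subset_around hx) hx
    constructor
    · rintro (h1 | ⟨-, h1⟩)
      · have h2 : z = w := h1
        subst h2
        exact hzz
      · exact h1
    · intro h1
      exact Or.inr ⟨⟨x, hx⟩, h1⟩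
  · refine ⟨z, z, le_rfl, ?_⟩
    ext w
    rw [Set.Icc_self]
    constructor
    · rintro (h1 | ⟨h1, -⟩)
      · exact (h1 : z = w).symm
      · exact absurd h1 hz
    · intro h1
      exact Or.inl (show z = w from (h1 : w = z).symm)

lemma base_GE (h : IsLinearlyOrderedCoarse 𝓔) :
    IsBase {G | ∃ E ∈ ConvexEnt 𝓔, G = GE 𝓔 E} (EZ 𝓔) := by
  constructor
  · rintro _ ⟨E, hE, rfl⟩
    exact GE_mem h hE
  · rintro D ⟨-, E, hE, hDE⟩
    refine ⟨GE 𝓔 E, ⟨E, hE, rfl⟩, ?_⟩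
    rintro ⟨z, w⟩ hzw
    rcases hDE z w hzw with h1 | ⟨x, hx, hx'⟩
    · exact Or.inl h1
    · exact Or.inr ⟨⟨x, hx⟩, hull_mono (subset_around hx) hx'⟩

lemma compat_EZ (h : IsLinearlyOrderedCoarse 𝓔) : Compatible (EZ 𝓔) := by
  intro D hD
  obtain ⟨_, ⟨E, hE, rfl⟩, hsub⟩ := (base_GE h).2 D hD
  refine ⟨GE 𝓔 E, GE_mem h hE, fun z w hzw hw z' hz' => ?_⟩
  by_contra hcon
  rw [not_lt] at hcon
  obtain ⟨a, b, -, hab⟩ := ball_GE h hE z
  have h1 : z' ∈ ball (GE 𝓔 E) z := hsub hz'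
  have h2 : z ∈ ball (GE 𝓔 E) z := Or.inl rfl
  rw [hab] at h1 h2 hw
  exact hw ⟨h2.1.trans hzw.le, hcon.trans h1.2⟩

/-- The embedding of `X`. -/
def emb (h : IsLinearlyOrderedCoarse 𝓔) (x : X) : ZZ 𝓔 := ⟨pt x, by
  obtain ⟨E, hE, -⟩ := h.conn x x
  obtain ⟨B, hB, -⟩ := exists_convex h hE
  exact ⟨B, hB, x, pt_mem_hull (h.coarse.diag B hB.1 x)⟩⟩

lemma asymorphic (h : IsLinearlyOrderedCoarse 𝓔) :
    Asymorphic 𝓔 (restrict (EZ 𝓔) (Set.range (emb h))) := by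
  have hinj : Function.Injective (emb h) := fun x y hxy =>
    pt_injective (congrArg Subtype.val hxy)
  refine ⟨Equiv.ofInjective _ hinj, ?_, ?_⟩
  · intro E hE
    obtain ⟨B, hB, hEB⟩ := exists_convex h hE
    refine ⟨_, ⟨{p : ZZ 𝓔 × ZZ 𝓔 | p.1 = p.2 ∨ Close B (p.1 : Cut X) (p.2 : Cut X)},
      ⟨fun z => Or.inl rfl, B, hB, fun z w hzw => hzw⟩, rfl⟩, ?_⟩
    rintro x _ ⟨y, hy, rfl⟩
    exact Or.inr ⟨x, pt_mem_hull (h.coarse.diag B hB.1 x), pt_mem_hull (hEB hy)⟩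
  · rintro _ ⟨D, ⟨hD, E, hE, hDE⟩, rfl⟩
    refine ⟨_, h.coarse.comp _ (h.coarse.inv E hE.1) E hE.1, ?_⟩
    rintro z _ ⟨w, hzw, rfl⟩
    obtain ⟨x, rfl⟩ := (Equiv.ofInjective _ hinj).surjective z
    obtain ⟨y, rfl⟩ := (Equiv.ofInjective _ hinj).surjective w
    rw [Equiv.symm_apply_apply, Equiv.symm_apply_apply]
    have h1 : (emb h x, emb h y) ∈ D := hzw
    rcases hDE _ _ h1 with h2 | ⟨x₀, h2, h3⟩
    · have h4 := hinj h2
      subst h4
      exact ⟨x, h.coarse.diag E hE.1 x, h.coarse.diag E hE.1 x⟩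
    · exact ⟨x₀, mem_of_pt_mem_hull (hE.2 x₀) h2, mem_of_pt_mem_hull (hE.2 x₀) h3⟩

end space

/-- Every linearly ordered coarse space is asymorphic to a subspace of a linearly ordered coarse
space with an interval base. -/
theorem result (X : Type u) [LinearOrder X] (𝓔 : Set (Set (X × X)))
    (h : IsLinearlyOrderedCoarse 𝓔) :
    ∃ (Z : Type u) (_ : LinearOrder Z) (𝓔Z : Set (Set (Z × Z))), IsLinearlyOrderedCoarse 𝓔Z ∧
      HasIntervalBase 𝓔Z ∧ ∃ Y : Set Z, Asymorphic 𝓔 (restrict 𝓔Z Y) :=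
  ⟨ZZ 𝓔, inferInstance, EZ 𝓔, ⟨coarse_EZ h, conn_EZ h, compat_EZ h⟩,
    ⟨_, base_GE h, by rintro _ ⟨E, hE, rfl⟩ z; exact ball_GE h hE z⟩, _, asymorphic h⟩

end Pool.Agent.Results.MP_54b381_gt.IntervalBaseEmbedding
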